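import Pool.Agent.W192.CM.Parts

/-! Project CM (helper192): orthogonality for the powers of a character with `χ ^ e = 1`
(adapted from Pool.Agent.W230.CY.Orth). -/

set_option autoImplicit false

open Finset

namespace Pool.Agent.W319.CM

open Pool.Agent.W192.CM

section

variable {A : Type} [CommRing A] [Finite A]

lemma mem_Cf {χ₀ χ : MulChar A ℂ} {e : ℕ} :
    χ ∈ Cf χ₀ e ↔ χ ∈ Subgroup.zpowers χ₀ ∧ χ ^ e = 1 := by
  unfold Cf
  rw [Set.Finite.mem_toFinset]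
  rfl

lemma card_Cf (χ₀ : MulChar A ℂ) (e : ℕ) (he : e ∣ orderOf χ₀) :
    (Cf χ₀ e).card = e := by
  have hfin : Finite (MulChar A ℂ) := inferInstance
  have h1 := IsCyclic.card_powMonoidHom_ker (G := Subgroup.zpowers χ₀) e
  rw [Nat.card_zpowers, Nat.gcd_eq_right he] at h1
  have h2 : (Cf χ₀ e).card =
      Nat.card {χ : MulChar A ℂ | χ ∈ Subgroup.zpowers χ₀ ∧ χ ^ e = 1} := by
    unfold Cf
    rw [Nat.card_coe_set_eq, Set.ncard_eq_toFinset_card _ (Set.toFinite _)]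
  rw [h2]
  conv_rhs => rw [← h1]
  refine Nat.card_congr ⟨fun z => ⟨⟨z.1, z.2.1⟩, ?_⟩, fun z => ⟨z.1.1, z.1.2, ?_⟩, ?_, ?_⟩
  · rw [MonoidHom.mem_ker]
    exact Subtype.ext z.2.2
  · have := z.2
    rw [MonoidHom.mem_ker] at this
    exact congrArg Subtype.val this
  · intro z
    rfl
  · intro z
    rfl

lemma sum_mem (χ₀ : MulChar A ℂ) (e : ℕ) (he : e ∣ orderOf χ₀)
    (x : Aˣ) (hx : x ∈ Hf χ₀ e) :
    ∑ χ ∈ Cf χ₀ e, χ (x : A) = (e : ℂ) := by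
  rw [sum_congr rfl (fun χ hχ => hx χ (mem_Cf.1 hχ).1 (mem_Cf.1 hχ).2), sum_const,
    card_Cf χ₀ e he]
  simp

lemma sum_not_mem (χ₀ : MulChar A ℂ) (e : ℕ) (x : Aˣ)
    (hx : x ∉ Hf χ₀ e) : ∑ χ ∈ Cf χ₀ e, χ (x : A) = 0 := by
  have hx' : ¬ ∀ χ : MulChar A ℂ, χ ∈ Subgroup.zpowers χ₀ → χ ^ e = 1 →
    χ (x : A) = 1 := hx
  push Not at hx'
  obtain ⟨χ₁, hz, h0, h1⟩ := hx'
  have h2 : ∑ χ ∈ Cf χ₀ e, χ (x : A) = ∑ χ ∈ Cf χ₀ e, (χ₁ * χ) (x : A) := by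
    symm
    refine sum_bij' (fun χ _ => χ₁ * χ) (fun χ _ => χ₁⁻¹ * χ) ?_ ?_ ?_ ?_ ?_
    · intro χ hχ
      rw [mem_Cf] at hχ ⊢
      exact ⟨mul_mem hz hχ.1, by rw [mul_pow, h0, hχ.2, one_mul]⟩
    · intro χ hχ
      rw [mem_Cf] at hχ ⊢
      exact ⟨mul_mem (inv_mem hz) hχ.1, by rw [mul_pow, inv_pow, h0, hχ.2, inv_one, one_mul]⟩
    · intro χ _
      rw [inv_mul_cancel_left]
    · intro χ _
      rw [mul_inv_cancel_left]
    · intro χ _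
      rfl
  have h3 : ∑ χ ∈ Cf χ₀ e, (χ₁ * χ) (x : A) =
      χ₁ (x : A) * ∑ χ ∈ Cf χ₀ e, χ (x : A) := by
    rw [mul_sum]
    rfl
  rw [h3] at h2
  have h4 : (1 - χ₁ (x : A)) * ∑ χ ∈ Cf χ₀ e, χ (x : A) = 0 := by
    linear_combination h2
  rcases mul_eq_zero.1 h4 with h | h
  · exact absurd (sub_eq_zero.1 h).symm h1
  · exact h

lemma sum_units [Fintype Aˣ] (χ : MulChar A ℂ) [Decidable (χ = 1)] :
    ∑ x : Aˣ, χ (x : A) = if χ = 1 then ((Nat.card Aˣ : ℕ) : ℂ) else 0 := by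
  split_ifs with h
  · subst h
    rw [Nat.card_eq_fintype_card]
    simp
  · obtain ⟨y, hy⟩ := MulChar.ne_one_iff.1 h
    have h2 : ∑ x : Aˣ, χ (x : A) = χ (y : A) * ∑ x : Aˣ, χ (x : A) := by
      rw [mul_sum, ← Equiv.sum_comp (Equiv.mulLeft y)]
      apply sum_congr rfl
      intro x _
      rw [Equiv.coe_mulLeft, Units.val_mul, map_mul]
    have h4 : (1 - χ (y : A)) * ∑ x : Aˣ, χ (x : A) = 0 := by
      linear_combination h2
    rcases mul_eq_zero.1 h4 with h' | h'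
    · exact absurd (sub_eq_zero.1 h').symm hy
    · exact h'

end

/-- orthogonality in finite rings -/
theorem c_orth : C_ORTH := by
  intro A _ _ χ₀ e he
  refine ⟨?_, fun x => ⟨sum_mem χ₀ e he x, sum_not_mem χ₀ e x⟩⟩
  classical
  haveI : Fintype A := Fintype.ofFinite A
  haveI : Fintype Aˣ := Fintype.ofFinite Aˣ
  have h1 : ∑ x : Aˣ, ∑ χ ∈ Cf χ₀ e, χ (x : A) =
      ((Nat.card (Hf χ₀ e) : ℕ) : ℂ) * e := by
    have h2 : ∀ x : Aˣ, ∑ χ ∈ Cf χ₀ e, χ (x : A) =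
        if x ∈ Hf χ₀ e then (e : ℂ) else 0 := by
      intro x
      split_ifs with h
      · exact sum_mem χ₀ e he x h
      · exact sum_not_mem χ₀ e x h
    rw [sum_congr rfl (fun x _ => h2 x), ← sum_filter, sum_const, nsmul_eq_mul]
    congr 2
    rw [Nat.card_eq_fintype_card, Fintype.card_subtype]
  have h3 : ∑ x : Aˣ, ∑ χ ∈ Cf χ₀ e, χ (x : A) = ((Nat.card Aˣ : ℕ) : ℂ) := by
    rw [sum_comm, sum_congr rfl (fun χ _ => sum_units χ), sum_ite_eq' (Cf χ₀ e), if_pos]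
    rw [mem_Cf]
    exact ⟨one_mem _, one_pow _⟩
  rw [h1] at h3
  have h4 : Nat.card (Hf χ₀ e) * e = Nat.card Aˣ := by exact_mod_cast h3
  rw [mul_comm]
  exact h4

end Pool.Agent.W319.CM
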